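import Pool.Agent.Helper29.H2.St3

/-!
# Project H2 (MP_3ec731_nt), module D6: weighted sums of digits
-/

set_option autoImplicit false

namespace Pool.Agent.Helper29.H2

open Finset

private theorem sv_eq_D6 {α : Type} (x : ℕ) (f : ℕ → α) : sv x f = f x := by
  cases x <;> rfl

private theorem pow_modEq_D6 (b l : ℕ) : 2 ^ (b * l) ≡ 1 [MOD 2 ^ b - 1] := by
  have h1 : (2 : ℕ) ^ b ≡ 1 [MOD 2 ^ b - 1] := by
    have h2 : 1 ≤ 2 ^ b := Nat.one_le_two_pow
    exact ((Nat.modEq_iff_dvd' h2).2 dvd_rfl).symm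
  rw [pow_mul]
  have := h1.pow l
  rwa [one_pow] at this

private theorem digits_modEq_D6 (b Z l : ℕ) :
    Z % 2 ^ (b * l) ≡ ∑ S ∈ range l, dg b Z S [MOD 2 ^ b - 1] := by
  induction l with
  | zero =>
    simp only [mul_zero, pow_zero, Nat.mod_one, range_zero, sum_empty]
    exact Nat.ModEq.refl 0
  | succ l ih =>
    have h1 : Z % 2 ^ (b * (l + 1)) = Z % 2 ^ (b * l) + 2 ^ (b * l) * (Z / 2 ^ (b * l) % 2 ^ b) := by
      rw [mul_add, mul_one, pow_add, Nat.mod_mul]
    rw [h1, sum_range_succ]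
    refine Nat.ModEq.add ih ?_
    have h2 : 2 ^ (b * l) * (Z / 2 ^ (b * l) % 2 ^ b) ≡ 1 * dg b Z l [MOD 2 ^ b - 1] :=
      Nat.ModEq.mul (pow_modEq_D6 b l) (Nat.ModEq.refl _)
    rwa [one_mul] at h2

private theorem dg_shift_D6 (b Z l S : ℕ) : dg b Z (l + S) = dg b (Z / 2 ^ (b * l)) S := by
  unfold dg
  rw [mul_add, pow_add, Nat.div_div_eq_div_mul]

theorem hD6 : StD6 := by
  intro b γ w t
  induction t with
  | nil =>
    intro Z _ _ _
    simp [bs, ln]
  | cons a t ih =>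
    obtain ⟨l, h, v⟩ := a
    intro Z hb hZ hlt
    have hln : ln ((l, h, v) :: t) = l + ln t := rfl
    rw [hln] at hlt ⊢
    have hbs : bs b w ((l, h, v) :: t) Z = w h v * (Z % 2 ^ (b * l) % (2 ^ b - 1)) +
        bs b w t (Z / 2 ^ (b * l)) := by
      rw [bs, sv_eq_D6]
    have hdg : ∀ i, dg b (Z / 2 ^ (b * l)) i < 2 ^ γ := by
      intro i
      rw [← dg_shift_D6]
      exact hZ _
    have hlt2 : ln t * 2 ^ γ < 2 ^ b - 1 := by
      refine lt_of_le_of_lt ?_ hlt
      exact Nat.mul_le_mul_right _ (Nat.le_add_left _ _)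
    have hlt1 : l * 2 ^ γ < 2 ^ b - 1 := by
      refine lt_of_le_of_lt ?_ hlt
      exact Nat.mul_le_mul_right _ (Nat.le_add_right _ _)
    rw [hbs, ih (Z / 2 ^ (b * l)) hb hdg hlt2, sum_range_add]
    congr 1
    · have h1 : ∑ S ∈ range l, dg b Z S ≤ l * 2 ^ γ := by
        have := Finset.sum_le_card_nsmul (range l) (fun S => dg b Z S) (2 ^ γ)
          (fun S _ => (hZ S).le)
        simpa using this
      have h2 : Z % 2 ^ (b * l) % (2 ^ b - 1) = ∑ S ∈ range l, dg b Z S := by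
        have h3 := digits_modEq_D6 b Z l
        unfold Nat.ModEq at h3
        rw [h3]
        exact Nat.mod_eq_of_lt (lt_of_le_of_lt h1 hlt1)
      rw [h2, mul_sum]
      refine sum_congr rfl fun S hS => ?_
      have h4 : lk w ((l, h, v) :: t) S = w h v := by
        rw [lk, if_pos (mem_range.1 hS)]
      rw [h4]
    · refine sum_congr rfl fun S _ => ?_
      have h4 : lk w ((l, h, v) :: t) (l + S) = lk w t S := by
        rw [lk, if_neg (by omega)]
        congr 1
        omega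
      rw [h4, dg_shift_D6]

end Pool.Agent.Helper29.H2
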